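import Pool.Agent.X31.G2

/-!
# Autocorrelations of the Möbius function: all vectors of shifts near the values of generalised polynomials

`f_i(t) = ∑ a_x t ^ x`, `i = 1, ..., r`, are arbitrary finite real combinations of real powers of `t` with positive
largest exponents `c_i` (for instance `t ^ {3/2}`, `√2 t ^ 3 + t`). For almost all vectors `(m_1, ..., m_r)` of elements of
ARBITRARY dense sets `A_i ⊆ {1, ..., Y_i}`, `Y_i ^ (c_i) ≈ N` (for instance: primes), ALL vectors of integers `α_i` with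
`|α_i - (b_i + f_i(m_i))| ≤ log ^ D N` satisfy Chowla's conjecture up to `N`, with an arbitrary power of the logarithm and
with arbitrary bounded weights.

The bound for the real additive energy of all generalised polynomials is from `Pool.Agent.X31` (`gp_EB`, in this
run); the correlations for families with a sparse large spectrum are from `Pool.Agent.X107.JF` (helper107), the bound for
the exponential sums with `μ` is from the starting files (`Pool.Agent.H373R2.T7.sup_muC`).
-/

set_option autoImplicit false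

namespace Pool.Agent.Results.MP_c59857_nt.GeneralisedPolynomialShifts

open Finset

/-- the generalised polynomial with the exponents `x ∈ F` and the coefficients `a x` -/
noncomputable def f (F : Finset ℝ) (a : ℝ → ℝ) (t : ℝ) : ℝ := ∑ x ∈ F, a x * t ^ x

/-- The Möbius function on the integers, `0` at the integers `m ≤ 0`, with complex values. -/
noncomputable def mu (m : ℤ) : ℂ := ((ArithmeticFunction.moebius m.toNat : ℤ) : ℂ)

lemma mu_norm (m : ℤ) : ‖mu m‖ ≤ 1 := by
  unfold mu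
  rw [Complex.norm_intCast]
  exact_mod_cast ArithmeticFunction.abs_moebius_le_one

lemma mu_eq (m : ℤ) : Pool.Agent.H373R2.T7.exI Pool.Agent.H373R2.T7.muC m = mu m := by
  unfold Pool.Agent.H373R2.T7.exI mu
  split_ifs with h3
  · rfl
  · rw [Int.toNat_of_nonpos (by omega)]
    simp

/-- Let `ε i` be natural numbers (for example `ε i ∈ {1, 2}`) for `i < r`, with at least one `ε i = 1`. Let `f_i = f (F i) (a i)` be generalised polynomials
with the largest exponents `c i > 0` and `a i (c i) ≠ 0`, and let `B`, `D`, `T`, `U` be natural numbers. For all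
sufficiently large `N` and all `Y i` with `N / log ^ D N ≤ (Y i) ^ (c i) ≤ N`, ALL sets `A i ⊆ {1, ..., Y i}` with at least
`Y i / log ^ D N` elements, all real `b i` with `|b i| ≤ N`, and all weights `g l : ℕ → ℂ` bounded by `1`, where `l` ranges
over at most `log ^ T N` indices: for all but at most `(∏ #(A i)) / log ^ U N` of the vectors `m` with `m i ∈ A i`, ALL
vectors `α` of integers with `|α i - (b i + f_i(m i))| ≤ log ^ D N` satisfy
`|∑ n ≤ x, g l n * ∏ i, μ (n + α i) ^ ε i| ≤ N / log ^ U N` for all `l` and all `x ≤ B N`. -/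
theorem result {r : ℕ} (ε : Fin r → ℕ) (hε1 : ∃ i, ε i = 1)
    (F : Fin r → Finset ℝ) (a : Fin r → ℝ → ℝ) (c : Fin r → ℝ)
    (hF : ∀ i, c i ∈ F i ∧ (∀ x ∈ F i, x ≤ c i) ∧ a i (c i) ≠ 0 ∧ 0 < c i) (B D T U : ℕ) :
    ∃ N₀ : ℕ, ∀ N : ℕ, N₀ ≤ N → ∀ (Y : Fin r → ℕ) (A : Fin r → Finset ℕ) (b : Fin r → ℝ),
      (∀ i, (N : ℝ) / Real.log N ^ D ≤ (Y i : ℝ) ^ (c i) ∧ (Y i : ℝ) ^ (c i) ≤ N ∧
        A i ⊆ Icc 1 (Y i) ∧ (Y i : ℝ) / Real.log N ^ D ≤ (A i).card ∧ |b i| ≤ N) →
      ∀ L : ℕ, (L : ℝ) ≤ Real.log N ^ T → ∀ g : Fin L → ℕ → ℂ, (∀ l n, ‖g l n‖ ≤ 1) →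
      ∃ E : Finset (Fin r → ℕ), (E.card : ℝ) ≤ (∏ i, ((A i).card : ℝ)) / Real.log N ^ U ∧
        ∀ m : Fin r → ℕ, (∀ i, m i ∈ A i) → m ∉ E →
        ∀ α : Fin r → ℤ, (∀ i, |(α i : ℝ) - (b i + f (F i) (a i) (m i))| ≤ Real.log N ^ D) →
          ∀ l, ∀ x : ℕ, x ≤ B * N →
          ‖∑ n ∈ Icc 1 x, g l n * ∏ i, mu (n + α i) ^ ε i‖ ≤ N / Real.log N ^ U := by
  classical
  obtain ⟨i₀, hi₀⟩ := hε1
  obtain ⟨N₀, h0⟩ := Pool.Agent.X31.gp_corr_tuple Pool.Agent.H373R2.T7.muC (fun n => by
    have := mu_norm (n : ℤ)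
    unfold mu at this
    rw [Int.toNat_natCast] at this
    exact this) Pool.Agent.H373R2.T7.sup_muC i₀ F a c (fun i => (hF i).1) (fun i => (hF i).2.1)
    (fun i => (hF i).2.2.1) (fun i => (hF i).2.2.2) B D T U
  refine ⟨N₀, fun N hN Y A b hdat L hL g hg => ?_⟩
  obtain ⟨E, hE1, hE2⟩ := h0 N hN Y A b hdat L hL (fun _ => 1) (fun _ => le_rfl)
    (fun l s n => g l n * ∏ i ∈ univ.erase i₀, mu (n + s i) ^ ε i) (fun l s n => by
      rw [norm_mul, norm_prod]
      have h1 : ∏ i ∈ univ.erase i₀, ‖mu (n + s i) ^ ε i‖ ≤ 1 := by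
        apply Finset.prod_le_one (fun _ _ => norm_nonneg _)
        intro i _
        rw [norm_pow]
        exact pow_le_one₀ (norm_nonneg _) (mu_norm _)
      calc _ ≤ 1 * (1 : ℝ) := mul_le_mul (hg l n) h1 (prod_nonneg fun _ _ => norm_nonneg _) zero_le_one
        _ = 1 := one_mul _)
    (fun l s s' n hs => by
      congr 1
      apply prod_congr rfl
      intro i hi
      rw [hs i (mem_erase.1 hi).1])
  refine ⟨E, hE1, fun m hm hmE α hα l x hx => ?_⟩
  have h1 := hE2 m hm hmE α (fun i => hα i) l x (by rw [one_mul]; exact hx)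
  refine le_trans (le_of_eq ?_) h1
  congr 1
  apply sum_congr rfl
  intro n _
  rw [Nat.cast_one, one_mul, mu_eq, mul_assoc, ← prod_erase_mul univ (fun i => mu (n + α i) ^ ε i) (mem_univ i₀), hi₀,
    pow_one]

end Pool.Agent.Results.MP_c59857_nt.GeneralisedPolynomialShifts
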