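import Pool.Agent.Y842.QG.Fin
import Pool.Agent.TH823.MRS.Circ5

/-!
# The values of the Möbius function at `n + a` and the prime signature of `n + c`

Chowla's conjecture for two factors, with the second factor `μ(n + c)` replaced by an arbitrary bounded function of the
prime signature of `n + c` (the multiset of the exponents in the factorization) times an arbitrary bounded
multiplicative function: natural averages at almost all scales, partial sums, linear phases, logarithmic averages in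
total variation over the signatures.

Used from the starting files: the library `Pool.Agent.Y842.QG` (helper842) on correlations with functions of the
signature, and `Pool.Agent.TH823.MRS` (the theorem of Matomäki, Radziwiłł and Tao on exponential sums over short
windows) for the Möbius function.
-/

set_option autoImplicit false

open Finset Filter

namespace Pool.Agent.Results.MP_c59857_nt.PrimeSignature

open Classical in
/-- `E` has logarithmic density zero -/
def LogDensityZero (E : Set ℕ) : Prop := Tendsto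
  (fun X : ℕ => (∑ n ∈ Icc 1 X, if n ∈ E then (1 : ℝ) / n else 0) / Real.log X) atTop (nhds 0)

/-- `e(x) = exp(2 π i x)` -/
noncomputable def e (x : ℝ) : ℂ := Complex.exp (2 * Real.pi * x * Complex.I)

/-- the prime signature of `n`: the multiset of the exponents of the primes `p` dividing `n` -/
def sig (n : ℕ) : Multiset ℕ := n.primeFactors.val.map (fun p => n.factorization p)

/-- the Möbius function -/
def mu (n : ℕ) : ℂ := ((ArithmeticFunction.moebius n : ℤ) : ℂ)

/-- `g` is multiplicative with values in the unit disc (on the positive integers) -/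
def Mult (g : ℕ → ℂ) : Prop := (∀ n, 1 ≤ n → ‖g n‖ ≤ 1) ∧
  ∀ m n : ℕ, 1 ≤ m → 1 ≤ n → Nat.Coprime m n → g (m * n) = g m * g n

lemma mu_le (n : ℕ) : ‖mu n‖ ≤ 1 := by
  unfold mu
  rw [Complex.norm_intCast]
  exact_mod_cast ArithmeticFunction.abs_moebius_le_one

lemma mu_flp (p : ℕ) (hp : p.Prime) : Pool.Agent.Y842.PG.Flp mu p := by
  refine ⟨-1, by simp, fun n hn => ?_⟩
  have h : Nat.Coprime p n := (Nat.Prime.coprime_iff_not_dvd hp).2 hn
  unfold mu
  rw [ArithmeticFunction.isMultiplicative_moebius.map_mul_of_coprime h, ArithmeticFunction.moebius_apply_prime hp]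
  push_cast
  ring

/-- **Theorem.** Let `a ≠ c` be shifts. The function `A` from the multisets of natural numbers to the unit disc and the
multiplicative function `g` with `|g| ≤ 1` are arbitrary.
(A) For `ε > 0` and `X ≥ X₀(ε, a, c)`, uniformly in `A`, `g`, real `α_N` and `y_N ≤ N`:
`∑_{N ≤ X} (1/N) (1/N) |∑_{n ≤ y_N} A(sig(n + c)) g(n + c) μ(n + a) e(α_N n)| ≤ ε log X`.
(B) Logarithmic averages in total variation over the signatures `s`: for `ε > 0` and `X ≥ X₀(ε, a, c)`, uniformly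
in `g` and real `α`: `∑_s |∑_{n ≤ X, sig(n + c) = s} g(n + c) μ(n + a) e(α n) / n| ≤ ε log X`.
(C) For given `A` and `g` there is a set `E` of logarithmic density zero such that for all `a ≠ c` and `ε > 0` and all
large `N` outside `E`, for all real `α` and `y ≤ N`: `|∑_{n ≤ y} A(sig(n + c)) g(n + c) μ(n + a) e(α n)| ≤ ε N`. -/
theorem result :
    (∀ a c : ℕ, a ≠ c → ∀ ε : ℝ, 0 < ε → ∃ X₀ : ℕ, ∀ X : ℕ, X₀ ≤ X →
      ∀ A : Multiset ℕ → ℂ, (∀ s, ‖A s‖ ≤ 1) → ∀ g : ℕ → ℂ, Mult g →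
      ∀ (α : ℕ → ℝ) (y : ℕ → ℕ), (∀ N, y N ≤ N) →
        ∑ N ∈ Icc 1 X, ‖∑ n ∈ Icc 1 (y N),
          A (sig (n + c)) * g (n + c) * mu (n + a) * e (α N * n)‖ / (N : ℝ) ^ 2 ≤ ε * Real.log X) ∧
    (∀ a c : ℕ, a ≠ c → ∀ ε : ℝ, 0 < ε → ∃ X₀ : ℕ, ∀ X : ℕ, X₀ ≤ X → ∀ g : ℕ → ℂ, Mult g → ∀ α : ℝ,
        ∑ s ∈ (Icc 1 X).image (fun n => sig (n + c)),
          ‖∑ n ∈ (Icc 1 X).filter (fun n => sig (n + c) = s), g (n + c) * mu (n + a) * e (α * n) / n‖ ≤
          ε * Real.log X) ∧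
    (∀ (A : Multiset ℕ → ℂ), (∀ s, ‖A s‖ ≤ 1) → ∀ g : ℕ → ℂ, Mult g →
      ∃ E : Set ℕ, LogDensityZero E ∧ ∀ a c : ℕ, a ≠ c → ∀ ε : ℝ, 0 < ε → ∃ N₀ : ℕ, ∀ N : ℕ, N₀ ≤ N → N ∉ E →
        ∀ (α : ℝ) (y : ℕ), y ≤ N →
          ‖∑ n ∈ Icc 1 y, A (sig (n + c)) * g (n + c) * mu (n + a) * e (α * n)‖ ≤ ε * N) := by
  refine ⟨fun a c hac ε hε => ?_, fun a c hac ε hε => ?_, fun A hA g hg => ?_⟩
  · obtain ⟨X₀, h⟩ := Pool.Agent.Y842.QG.pair_sg1 mu mu_le Pool.Agent.TH823.MRS.mu_E mu_flp a c hac ε hε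
    exact ⟨X₀, fun X hX A hA g hg α y hy => h X hX A hA g hg.1 hg.2 α y hy⟩
  · obtain ⟨X₀, h⟩ := Pool.Agent.Y842.QG.tv_sg mu mu_le Pool.Agent.TH823.MRS.mu_E mu_flp a c hac ε hε
    exact ⟨X₀, fun X hX g hg α => h X hX g hg.1 hg.2 α⟩
  · obtain ⟨E, hE, h⟩ := Pool.Agent.Y842.QG.exc_sg mu mu_le Pool.Agent.TH823.MRS.mu_E mu_flp A hA g hg.1 hg.2
    exact ⟨E, hE, h⟩

end Pool.Agent.Results.MP_c59857_nt.PrimeSignature
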