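import Pool.Agent.X22.MuRT

/-!
The values of the Moebius function at `k` random linear forms `a_i n + b_i`, or at `k` random polynomials, with
coefficients up to `N`: along arbitrary sets of arguments `n ≤ x`, with arbitrary bounded weights and in the full range
`x₀ ≤ x ≤ δ N`, all the Chowla sums with factors `μ` and `μ ^ 2` and at least one factor `μ` are small, and given
which of the values are zero the nonzero ones have asymptotically independent random signs.

The second moment over the coefficients of one polynomial with an arbitrary weight (`Pool.Agent.TH892.RT`, starting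
files) is used for the function `μ` and with the values at the other random polynomials as a part of the weight. It
rests on the theorem of Matomäki, Radziwiłł and Tao on exponential sums over short windows
(`Pool.Agent.TH823.MRS`, starting files).
-/

set_option autoImplicit false

namespace Pool.Agent.Results.MP_c59857_nt.RandomTuples

open Finset

/-- `μ(|u|)` for an integer `u`; its value at `0` is `0` -/
def mob (u : ℤ) : ℤ := ArithmeticFunction.moebius u.natAbs

/-- all `k`-tuples of pairs `(a_i, b_i)` with `1 ≤ a_i ≤ N` and `0 ≤ b_i ≤ N` -/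
def pairs (k N : ℕ) : Finset (Fin k → ℕ × ℕ) := Fintype.piFinset (fun _ => Icc 1 N ×ˢ range (N + 1))

/-- all `k`-tuples of vectors `(a_(i,0), ..., a_(i,d))` of integers of absolute value at most `H` -/
noncomputable def box (k d H : ℕ) : Finset (Fin k → Fin (d + 1) → ℤ) :=
  Fintype.piFinset (fun _ => Fintype.piFinset (fun _ => Icc (-(H : ℤ)) H))

/-- The conclusion for the integers `s i n` (`i < k`), the weights `w` and the set `T` of arguments: for all `y ≤ x`
`|∑_{n ≤ y} w n ∏_i μ(s i n) ^ (c i)| ≤ ε x` for all the exponents `c i ∈ {0, 1, 2}` one of which is `1`, and for every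
`v ∈ {-1, 0, 1}^k` the number of the `n ≤ y` in `T` with `μ(s i n) = v i` for all `i` differs by at most `ε x` from
`2 ^ (-#{i : v i ≠ 0})` times the number of the `n ≤ y` in `T` with `|μ(s i n)| = |v i|` for all `i`. -/
def Chowla (k x : ℕ) (ε : ℝ) (w : ℕ → ℂ) (T : Finset ℕ) (s : Fin k → ℕ → ℤ) : Prop := ∀ y ≤ x,
  (∀ c : Fin k → Fin 3, (∃ i, c i = 1) →
    ‖∑ n ∈ Icc 1 y, w n * ∏ i, ((mob (s i n) : ℤ) : ℂ) ^ (c i : ℕ)‖ ≤ ε * x) ∧
  (∀ v : Fin k → ℤ, (∀ i, v i = -1 ∨ v i = 0 ∨ v i = 1) →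
    |(((Icc 1 y ∩ T).filter (fun n => ∀ i, mob (s i n) = v i)).card : ℝ) -
      (((Icc 1 y ∩ T).filter (fun n => ∀ i, |mob (s i n)| = |v i|)).card : ℝ) /
        2 ^ (univ.filter (fun i => v i ≠ 0)).card| ≤ ε * x)

/-- **Chowla's conjecture for the Moebius function for almost all tuples of linear forms and of polynomials**, with
arbitrary weights and in the full range of lengths from a constant up to a constant multiple of the height.

(1) For all `k` and `ε > 0` there are `x₀` and `δ > 0` such that, whenever `x₀ ≤ x ≤ δ N`, for all weights `|w n| ≤ 1`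
and all sets `T`, all but `ε (number)` of the `k`-tuples `((a_i, b_i))` with `1 ≤ a_i ≤ N`, `0 ≤ b_i ≤ N` have the
property `Chowla` for the linear forms `a_i n + b_i`.

(2) The same for `k`-tuples of polynomials of degree at most `d ≥ 1` all of whose coefficients are at most `H` in
absolute value, to which arbitrary integers `g_i(n)` with `|g_i(n)| ≤ C H n^d` are added (so the centre of the box of
coefficients may be any point of height at most `C H`, and the polynomials may be monic of degree `d + 1`). -/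
theorem result :
    (∀ (k : ℕ) (ε : ℝ), 0 < ε → ∃ (x₀ : ℕ) (δ : ℝ), 0 < δ ∧ ∀ N x : ℕ, x₀ ≤ x → (x : ℝ) ≤ δ * N →
      ∀ w : ℕ → ℂ, (∀ n, ‖w n‖ ≤ 1) → ∀ T : Finset ℕ,
      ∃ E ⊆ pairs k N, (E.card : ℝ) ≤ ε * (pairs k N).card ∧ ∀ p ∈ pairs k N, p ∉ E →
        Chowla k x ε w T (fun i n => (p i).1 * n + (p i).2)) ∧
    (∀ (k d : ℕ), 1 ≤ d → ∀ C ε : ℝ, 0 < ε → ∃ (x₀ : ℕ) (δ : ℝ), 0 < δ ∧ ∀ H x : ℕ, x₀ ≤ x → (x : ℝ) ≤ δ * H →
      ∀ g : Fin k → ℕ → ℤ, (∀ i n, 1 ≤ n → n ≤ x → |(g i n : ℝ)| ≤ C * H * n ^ d) →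
      ∀ w : ℕ → ℂ, (∀ n, ‖w n‖ ≤ 1) → ∀ T : Finset ℕ,
      ∃ E ⊆ box k d H, (E.card : ℝ) ≤ ε * (box k d H).card ∧ ∀ a ∈ box k d H, a ∉ E →
        Chowla k x ε w T (fun i n => ∑ j, a i j * (n : ℤ) ^ (j : ℕ) + g i n)) := by
  constructor
  · intro k ε hε
    obtain ⟨x₀, δ, hδ, h⟩ := Pool.Agent.X22.MuRT.linear k ε hε
    refine ⟨x₀, δ, hδ, fun N x h1 h2 w hw T => ?_⟩
    obtain ⟨E, hE, hEc, hEg⟩ := h N x h1 h2 w hw T
    exact ⟨E, hE, hEc, fun p hp hpE y hy => hEg p hp hpE y hy⟩
  · intro k d hd C ε hε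
    obtain ⟨x₀, δ, hδ, h⟩ := Pool.Agent.X22.MuRT.final k d hd C ε hε
    refine ⟨x₀, δ, hδ, fun H x h1 h2 g hg w hw T => ?_⟩
    obtain ⟨E, hE, hEc, hEg⟩ := h H x h1 h2 g hg w hw T
    exact ⟨E, hE, hEc, fun a ha haE y hy => hEg a ha haE y hy⟩

end Pool.Agent.Results.MP_c59857_nt.RandomTuples
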